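import Mathlib

set_option autoImplicit false

namespace Pool.Agent.Results.MP_5b71d7_co.Proof

open Finset

/-- `F` is a family of nonempty subsets of `[n]` that is union-closed over `[n]`. -/
def UnionClosedOver {n : ℕ} (F : Finset (Finset (Fin n))) : Prop :=
  (∀ A ∈ F, A.Nonempty) ∧ (univ : Finset (Fin n)) ∈ F ∧ ∀ A ∈ F, ∀ B ∈ F, A ∪ B ∈ F

/-- All nonempty subsets of `[n]`. -/
def allNonempty (n : ℕ) : Finset (Finset (Fin n)) := univ.filter (fun A => A.Nonempty)

open Classical in
/-- The closure: the nonempty `A` such that `F ∪ {A}` is union-closed. -/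
noncomputable def clos {n : ℕ} (F : Finset (Finset (Fin n))) : Finset (Finset (Fin n)) :=
  (allNonempty n).filter (fun A => UnionClosedOver (insert A F))

/-- The density of `F` is exactly `k`. -/
def IsDense {n : ℕ} (k : ℕ) (F : Finset (Finset (Fin n))) : Prop :=
  clos^[k] F = allNonempty n ∧ ∀ j < k, clos^[j] F ≠ allNonempty n

lemma mem_clos {n : ℕ} {F : Finset (Finset (Fin n))} {A : Finset (Fin n)} :
    A ∈ clos F ↔ A.Nonempty ∧ UnionClosedOver (insert A F) := by
  classical
  simp [clos, allNonempty]

lemma chains {n : ℕ} (W : Finset (Finset (Fin n))) (C : Finset (Fin n)) (hC : C ∉ W)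
    (hU : C ≠ univ → (univ : Finset (Fin n)) ∈ W) :
    n - C.card ≤ ((univ : Finset (Finset (Fin n) × Fin n)).filter
      (fun p => (p.2 ∉ p.1 ∧ p.1 ∉ W ∧ insert p.2 p.1 ∈ W) ∧ C ⊆ p.1)).card := by
  classical
  by_cases hCu : C = univ
  · subst hCu; simp
  have hU' := hU hCu
  obtain ⟨d, hd⟩ : ∃ d, Cᶜ.card = d + 1 := by
    have : Cᶜ.Nonempty := by
      rw [Finset.nonempty_iff_ne_empty]; intro h; apply hCu
      simpa using h
    exact ⟨Cᶜ.card - 1, by have := this.card_pos; omega⟩
  have hdn : n - C.card = d + 1 := by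
    rw [← hd, Finset.card_compl, Fintype.card_fin]
  let e : Fin (d + 1) ↪o Fin n := Cᶜ.orderEmbOfFin hd
  have he : ∀ t, e t ∉ C := fun t => by
    exact Finset.mem_compl.1 (Finset.orderEmbOfFin_mem Cᶜ hd t)
  have hsurj : ∀ x, x ∉ C → ∃ t, e t = x := fun x hx => by
    have : x ∈ Set.range (Cᶜ.orderEmbOfFin hd) := by
      rw [Finset.range_orderEmbOfFin]; simpa using hx
    exact this
  let I : Fin (d + 1) → ℕ → Finset (Fin n) := fun s l =>
    C ∪ (univ.filter (fun t : Fin (d + 1) => t.val < l)).image (fun t => e (s + t))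
  have hI0 : ∀ s, I s 0 = C := fun s => by simp [I]
  have hI1 : ∀ s, I s (d + 1) = univ := fun s => by
    ext x
    simp only [I, mem_union, mem_image, mem_filter, mem_univ, true_and, iff_true]
    by_cases hx : x ∈ C
    · exact Or.inl hx
    · obtain ⟨t, rfl⟩ := hsurj x hx
      exact Or.inr ⟨t - s, (t - s).2, by simp⟩
  have hcard : ∀ s (l : Fin (d + 1)), (I s l).card = C.card + l := fun s l => by
    simp only [I]
    rw [card_union_of_disjoint, card_image_of_injective]
    · congr 1
      have : (univ.filter (fun t : Fin (d + 1) => t.val < l.val)) = Iio l := by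
        ext t; simp
      rw [this, Fin.card_Iio]
    · intro a b hab
      simpa using e.injective hab
    · rw [Finset.disjoint_right]
      intro x hx
      obtain ⟨t, _, rfl⟩ := mem_image.1 hx
      exact he _
  have hstep : ∀ s (l : Fin (d + 1)), I s (l + 1) = insert (e (s + l)) (I s l) := fun s l => by
    ext x
    simp only [I, mem_union, mem_image, mem_filter, mem_univ, true_and, mem_insert]
    constructor
    · rintro (h | ⟨t, ht, rfl⟩)
      · exact Or.inr (Or.inl h)
      · by_cases htl : t = l
        · subst htl; exact Or.inl rfl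
        · refine Or.inr (Or.inr ⟨t, ?_, rfl⟩)
          have : t.val ≠ l.val := fun h => htl (Fin.ext h)
          omega
    · rintro (rfl | h | ⟨t, ht, rfl⟩)
      · exact Or.inr ⟨l, by omega, rfl⟩
      · exact Or.inl h
      · exact Or.inr ⟨t, by omega, rfl⟩
  have hnot : ∀ s (l : Fin (d + 1)), e (s + l) ∉ I s l := fun s l => by
    simp only [I, mem_union, mem_image, mem_filter, mem_univ, true_and, not_or, not_exists,
      not_and]
    refine ⟨he _, fun t ht h => ?_⟩
    have : t = l := by simpa using e.injective h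
    omega
  have hex : ∀ s, ∃ l : Fin (d + 1), I s l ∉ W ∧ I s (l + 1) ∈ W := fun s => by
    by_contra hcon
    push Not at hcon
    have : ∀ l, l ≤ d + 1 → I s l ∉ W := by
      intro l
      induction l with
      | zero => intro _; rw [hI0]; exact hC
      | succ l ih => intro hl; exact hcon ⟨l, by omega⟩ (ih (by omega))
    exact this _ le_rfl (by rw [hI1]; exact hU')
  choose L hL using hex
  rw [hdn]
  have := Finset.card_le_card_of_injOn (s := (univ : Finset (Fin (d + 1))))
    (t := (univ : Finset (Finset (Fin n) × Fin n)).filter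
      (fun p => (p.2 ∉ p.1 ∧ p.1 ∉ W ∧ insert p.2 p.1 ∈ W) ∧ C ⊆ p.1))
    (fun s => (I s (L s), e (s + L s))) (by
      intro s _
      simp only [coe_filter, mem_univ, true_and, Set.mem_ofPred_eq]
      refine ⟨⟨hnot _ _, (hL s).1, ?_⟩, subset_union_left⟩
      rw [← hstep]; exact (hL s).2) (by
      intro s _ s' _ h
      simp only [Prod.mk.injEq] at h
      have h1 : L s = L s' := by
        have := congrArg Finset.card h.1
        rw [hcard, hcard] at this
        exact Fin.ext (by omega)
      have h2 := e.injective h.2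
      rw [h1] at h2
      simpa using h2)
  simpa using this

lemma upcount {n : ℕ} (W : Finset (Finset (Fin n)))
    (hW : ∀ A ∈ W, ∀ B, A ⊆ B → B ∈ W) (i : Fin n) :
    W.card + ((univ : Finset (Finset (Fin n))).filter
      (fun E => i ∉ E ∧ E ∉ W ∧ insert i E ∈ W)).card = 2 * (W.filter (fun A => i ∈ A)).card := by
  classical
  have h1 : (W.filter (fun A => i ∈ A)).card + (W.filter (fun A => ¬ i ∈ A)).card = W.card :=
    Finset.card_filter_add_card_filter_not _
  have h2 : (W.filter (fun A => i ∈ A)).card = ((W.filter (fun A => ¬ i ∈ A)) ∪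
      (univ : Finset (Finset (Fin n))).filter
      (fun E => i ∉ E ∧ E ∉ W ∧ insert i E ∈ W)).card := by
    symm
    apply Finset.card_bij (fun E _ => insert i E)
    · intro E hE
      simp only [mem_union, mem_filter, mem_univ, true_and] at hE ⊢
      rcases hE with h | h
      · exact ⟨hW _ h.1 _ (subset_insert _ _), mem_insert_self _ _⟩
      · exact ⟨h.2.2, mem_insert_self _ _⟩
    · intro E hE E' hE' h
      simp only [mem_union, mem_filter, mem_univ, true_and] at hE hE'
      have a1 : i ∉ E := by tauto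
      have a2 : i ∉ E' := by tauto
      rw [← erase_insert a1, h, erase_insert a2]
    · intro A hA
      simp only [mem_filter] at hA
      refine ⟨A.erase i, ?_, insert_erase hA.2⟩
      simp only [mem_union, mem_filter, mem_univ, true_and, notMem_erase, not_false_eq_true,
        and_true, insert_erase hA.2, hA.1]
      tauto
  rw [card_union_of_disjoint] at h2
  · omega
  · rw [Finset.disjoint_left]
    intro E h h'
    simp only [mem_filter, mem_univ, true_and] at h h'
    exact h'.2.1 h.1

lemma degsum {n : ℕ} (M : Finset (Finset (Fin n))) :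
    ∑ i : Fin n, (M.filter (fun A => i ∈ A)).card = ∑ C ∈ M, C.card := by
  classical
  simp only [card_filter]
  rw [Finset.sum_comm]
  refine Finset.sum_congr rfl fun C _ => ?_
  simp

theorem result : ∀ n : ℕ, 1 ≤ n → ∀ F : Finset (Finset (Fin n)), UnionClosedOver F →
    IsDense 2 F → ∃ i : Fin n, F.card / 2 ≤ (F.filter (fun A => i ∈ A)).card := by
  classical
  intro n hn F hF hD
  have h2 : clos (clos F) = allNonempty n := hD.1
  have hFG : ∀ A ∈ F, A ∈ clos F := fun A hA =>
    mem_clos.2 ⟨hF.1 A hA, by rwa [insert_eq_of_mem hA]⟩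
  have hup : ∀ B ∈ clos F, ∀ A, B ⊆ A → A ∈ clos F := by
    intro B hB A hBA
    by_cases hE : A \ B = ∅
    · have : A = B := Subset.antisymm (by simpa using hE) hBA
      rwa [this]
    · have hm : A \ B ∈ clos (clos F) := by
        rw [h2]; simpa [allNonempty, nonempty_iff_ne_empty] using hE
      have := (mem_clos.1 hm).2.2.2 (A \ B) (mem_insert_self _ _) B (mem_insert_of_mem hB)
      rw [sdiff_union_of_subset hBA, mem_insert] at this
      rcases this with h | h
      · obtain ⟨x, hx⟩ := (mem_clos.1 hB).1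
        have : x ∈ A \ B := h ▸ hBA hx
        simp [hx] at this
      · exact h
  set W := F.filter (fun A => ∃ C ∈ F, C ⊂ A) with hWdef
  set M := F.filter (fun A => ¬ ∃ C ∈ F, C ⊂ A) with hMdef
  have hW : ∀ B ∈ W, ∀ A, B ⊆ A → A ∈ W := by
    intro B hB A hBA
    obtain ⟨hBF, C, hC, hCB⟩ := mem_filter.1 hB
    refine mem_filter.2 ⟨?_, C, hC, hCB.trans_le hBA⟩
    have hm := hup C (hFG C hC) (C ∪ (A \ B)) subset_union_left
    have := (mem_clos.1 hm).2.2.2 _ (mem_insert_self _ _) B (mem_insert_of_mem hBF)
    have e1 : C ∪ (A \ B) ∪ B = A := by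
      ext x
      have := @hBA x
      have := @hCB.1 x
      simp only [mem_union, mem_sdiff]; tauto
    rw [e1, mem_insert] at this
    rcases this with h | h
    · exfalso
      obtain ⟨x, hx, hxC⟩ := exists_of_ssubset hCB
      have : x ∈ C ∪ (A \ B) := h ▸ hBA hx
      simp [hx, hxC] at this
    · exact h
  have htwo : ∀ C ∈ M, ∀ C' ∈ M, C ≠ C' → ∀ E, C ⊆ E → C' ⊆ E → E ∈ W := by
    intro C hC C' hC' hne E h h'
    have a := mem_filter.1 hC
    have a' := mem_filter.1 hC'
    refine hW (C ∪ C') (mem_filter.2 ⟨hF.2.2 _ a.1 _ a'.1, C, a.1, ?_⟩) E (union_subset h h')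
    refine Finset.ssubset_iff_subset_ne.2 ⟨subset_union_left, fun hh => ?_⟩
    apply a.2
    refine ⟨C', a'.1, Finset.ssubset_iff_subset_ne.2 ⟨?_, hne.symm⟩⟩
    rw [hh]; exact subset_union_right
  set Bd := (univ : Finset (Finset (Fin n) × Fin n)).filter
      (fun p => p.2 ∉ p.1 ∧ p.1 ∉ W ∧ insert p.2 p.1 ∈ W) with hBd
  have hB1 : Bd.card = ∑ i : Fin n, ((univ : Finset (Finset (Fin n))).filter
      (fun E => i ∉ E ∧ E ∉ W ∧ insert i E ∈ W)).card := by
    simp only [hBd, card_filter]
    rw [← Finset.univ_product_univ, Finset.sum_product, Finset.sum_comm]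
  have hB2 : ∑ C ∈ M, (n - C.card) ≤ Bd.card := by
    calc ∑ C ∈ M, (n - C.card) ≤ ∑ C ∈ M, (Bd.filter (fun p => C ⊆ p.1)).card := by
          refine Finset.sum_le_sum fun C hC => ?_
          have a := mem_filter.1 hC
          rw [hBd, filter_filter]
          refine chains W C (fun h => a.2 (mem_filter.1 h).2) (fun h => ?_)
          exact mem_filter.2 ⟨hF.2.1, C, a.1, Finset.ssubset_iff_subset_ne.2 ⟨subset_univ _, h⟩⟩
      _ = (M.biUnion (fun C => Bd.filter (fun p => C ⊆ p.1))).card := by
          rw [card_biUnion]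
          intro C hC C' hC' hne
          rw [Function.onFun, Finset.disjoint_left]
          intro p hp hp'
          have b := mem_filter.1 hp
          have b' := mem_filter.1 hp'
          exact (mem_filter.1 b.1).2.2.1 (htwo C hC C' hC' hne _ b.2 b'.2)
      _ ≤ Bd.card := card_le_card (by
          intro p hp
          obtain ⟨C, _, h⟩ := mem_biUnion.1 hp
          exact (mem_filter.1 h).1)
  have hWM : W.card + M.card = F.card := Finset.card_filter_add_card_filter_not _
  have hdeg : ∀ i : Fin n, (F.filter (fun A => i ∈ A)).card =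
      (W.filter (fun A => i ∈ A)).card + (M.filter (fun A => i ∈ A)).card := fun i => by
    rw [hWdef, hMdef, filter_comm (fun A => ∃ C ∈ F, C ⊂ A), filter_comm (fun A => ¬ ∃ C ∈ F, C ⊂ A),
      Finset.card_filter_add_card_filter_not]
  by_contra hcon
  push Not at hcon
  have s1 : ∑ i : Fin n, 2 * (F.filter (fun A => i ∈ A)).card < ∑ _i : Fin n, F.card := by
    refine Finset.sum_lt_sum_of_nonempty ⟨⟨0, hn⟩, mem_univ _⟩ fun i _ => ?_
    have := hcon i
    omega
  have s2 : ∑ i : Fin n, 2 * (F.filter (fun A => i ∈ A)).card =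
      n * W.card + Bd.card + 2 * ∑ C ∈ M, C.card := by
    rw [hB1, ← degsum, Finset.mul_sum]
    have : n * W.card = ∑ _i : Fin n, W.card := by simp
    rw [this, ← Finset.sum_add_distrib, ← Finset.sum_add_distrib]
    refine Finset.sum_congr rfl fun i _ => ?_
    rw [upcount W hW i, hdeg]; ring
  have s3 : ∑ C ∈ M, (n - C.card) + ∑ C ∈ M, C.card = n * M.card := by
    rw [← Finset.sum_add_distrib]
    have : ∀ C ∈ M, n - C.card + C.card = n := fun C _ => by
      have := card_le_univ C
      rw [Fintype.card_fin] at this; omega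
    rw [Finset.sum_congr rfl this]; simp [mul_comm]
  have s4 : ∑ _i : Fin n, F.card = n * W.card + n * M.card := by
    simp [← hWM, mul_add]
  omega

end Pool.Agent.Results.MP_5b71d7_co.Proof
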